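import Pool.Agent.Helper93.MLS

/-!
# The Polya-Vinogradov inequality for primitive characters

`polya_vinogradov`: `‖∑_{M < n ≤ M+N} χ n‖ ≤ √q (1 + log q)` for `χ` primitive mod `q > 1`.
-/

open MeasureTheory Set Filter
open Pool.Agent.Helper93.MLS

set_option autoImplicit false

namespace Pool.Agent.Helper93.FFK

lemma ee_sub_one {θ : ℝ} (h0 : 0 < θ) (h1 : θ < 1) : 4 * min θ (1 - θ) ≤ ‖ee θ - 1‖ := by
  have hpi := Real.pi_pos
  have e1 : ‖ee θ - 1‖ = ‖2 * Real.sin (2 * Real.pi * θ / 2)‖ := by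
    have := Complex.norm_exp_I_mul_ofReal_sub_one (2 * Real.pi * θ)
    rw [mul_comm Complex.I] at this
    exact this
  have e2 : 2 * Real.pi * θ / 2 = Real.pi * θ := by ring
  rw [e1, e2]
  have h2 : 2 * min θ (1 - θ) ≤ Real.sin (Real.pi * θ) := by
    rcases le_total θ (1 / 2) with h | h
    · have h3 := Real.mul_le_sin (x := Real.pi * θ) (by positivity) (by nlinarith)
      have h4 : 2 / Real.pi * (Real.pi * θ) = 2 * θ := by field_simp
      rw [h4] at h3
      have := min_le_left θ (1 - θ)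
      linarith
    · have h5 : 0 ≤ 1 - θ := by linarith
      have h3 := Real.mul_le_sin (x := Real.pi * (1 - θ)) (by positivity) (by nlinarith)
      have h4 : 2 / Real.pi * (Real.pi * (1 - θ)) = 2 * (1 - θ) := by field_simp
      have h6 : Real.sin (Real.pi * (1 - θ)) = Real.sin (Real.pi * θ) := by
        rw [mul_sub, mul_one, Real.sin_pi_sub]
      rw [h4, h6] at h3
      have := min_le_right θ (1 - θ)
      linarith
  have h3 : Real.sin (Real.pi * θ) ≤ ‖Real.sin (Real.pi * θ)‖ := le_abs_self _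
  rw [norm_mul, Real.norm_ofNat]
  linarith

/-- a geometric sum -/
lemma geom_le {θ : ℝ} (h0 : 0 < θ) (h1 : θ < 1) (M N : ℕ) :
    ‖∑ n ∈ Finset.Ioc M (M + N), ee (n * θ)‖ ≤ 1 / 2 * (1 / θ + 1 / (1 - θ)) := by
  have h2 : ∀ n : ℕ, ee (n * θ) = ee θ ^ n := by
    intro n
    unfold ee
    rw [← Complex.exp_nat_mul]
    congr 1
    push_cast
    ring
  have h3 : Finset.Ioc M (M + N) = Finset.Ico (M + 1) (M + N + 1) := by
    ext x
    simp only [Finset.mem_Ioc, Finset.mem_Ico]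
    omega
  have h4 : ∑ n ∈ Finset.Ioc M (M + N), ee (n * θ) = ee θ ^ (M + 1) * ∑ j ∈ Finset.range N, ee θ ^ j := by
    simp only [h2]
    rw [h3, Finset.sum_Ico_eq_sum_range, Finset.mul_sum]
    have : M + N + 1 - (M + 1) = N := by omega
    rw [this]
    refine Finset.sum_congr rfl fun j _ => ?_
    rw [pow_add]
  have h5 := ee_sub_one h0 h1
  have hm : 0 < min θ (1 - θ) := lt_min h0 (by linarith)
  have h6 : ‖∑ j ∈ Finset.range N, ee θ ^ j‖ * ‖ee θ - 1‖ ≤ 2 := by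
    rw [← norm_mul, geom_sum_mul]
    refine (norm_sub_le _ _).trans ?_
    rw [norm_pow, ee_norm, one_pow, norm_one]
    norm_num
  rw [h4, norm_mul, norm_pow, ee_norm, one_pow, one_mul]
  have h7 : ‖∑ j ∈ Finset.range N, ee θ ^ j‖ * (4 * min θ (1 - θ)) ≤ 2 :=
    (mul_le_mul_of_nonneg_left h5 (norm_nonneg _)).trans h6
  have h8 : ‖∑ j ∈ Finset.range N, ee θ ^ j‖ ≤ 1 / 2 * (1 / min θ (1 - θ)) := by
    rw [← mul_div_assoc, le_div_iff₀ hm]
    linarith
  refine h8.trans ?_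
  have h9 : 1 / min θ (1 - θ) ≤ 1 / θ + 1 / (1 - θ) := by
    have p1 : 0 < 1 / θ := by positivity
    have p2 : 0 < 1 / (1 - θ) := by
      have : 0 < 1 - θ := by linarith
      positivity
    rcases min_choice θ (1 - θ) with h | h <;> rw [h] <;> linarith
  linarith

theorem polya_vinogradov {q : ℕ} [NeZero q] (hq : 1 < q) {χ : DirichletCharacter ℂ q} (hχ : χ.IsPrimitive) (M N : ℕ) :
    ‖∑ n ∈ Finset.Ioc M (M + N), χ n‖ ≤ Real.sqrt q * (1 + Real.log q) := by
  have hq0 : (0 : ℝ) < q := by positivity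
  have hχ' := inv_prim hχ
  have h1 : (∑ n ∈ Finset.Ioc M (M + N), χ n) * gaussSum χ⁻¹ ZMod.stdAddChar =
      ∑ x : ZMod q, χ⁻¹ x * ∑ n ∈ Finset.Ioc M (M + N), ZMod.stdAddChar ((n : ZMod q) * x) := by
    simp only [Finset.mul_sum]
    rw [Finset.sum_comm, Finset.sum_mul]
    refine Finset.sum_congr rfl fun n _ => ?_
    have h3 := gaussSum_mulShift_of_isPrimitive (ZMod.stdAddChar (N := q)) hχ' (n : ZMod q)
    rw [inv_inv] at h3
    rw [← h3]
    unfold gaussSum
    refine Finset.sum_congr rfl fun x _ => ?_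
    rw [AddChar.mulShift_apply]
  have h2 : ∑ x : ZMod q, χ⁻¹ x * ∑ n ∈ Finset.Ioc M (M + N), ZMod.stdAddChar ((n : ZMod q) * x) =
      ∑ x ∈ Finset.Ico 1 q, χ⁻¹ (x : ZMod q) * ∑ n ∈ Finset.Ioc M (M + N), ee (n * ((x : ℝ) / q)) := by
    have h3 : ∑ x : ZMod q, χ⁻¹ x * ∑ n ∈ Finset.Ioc M (M + N), ZMod.stdAddChar ((n : ZMod q) * x) =
        ∑ x ∈ Finset.range q, χ⁻¹ (x : ZMod q) * ∑ n ∈ Finset.Ioc M (M + N), ZMod.stdAddChar ((n : ZMod q) * (x : ZMod q)) := by
      refine Finset.sum_nbij' (fun x => x.val) (fun n => (n : ZMod q)) (fun x _ => ?_) (fun n _ => Finset.mem_univ _)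
        (fun x _ => ZMod.natCast_zmod_val x) (fun n hn => ?_) fun x _ => ?_
      · exact Finset.mem_range.2 (ZMod.val_lt x)
      · exact ZMod.val_cast_of_lt (Finset.mem_range.1 hn)
      · rw [ZMod.natCast_zmod_val]
    rw [h3, Finset.range_eq_Ico, ← Finset.sum_Ico_consecutive _ (Nat.zero_le 1) hq.le]
    have h4 : χ⁻¹ (0 : ZMod q) = 0 := by
      apply MulChar.map_nonunit
      haveI : Fact (1 < q) := ⟨hq⟩
      exact not_isUnit_zero
    have h5 : Finset.Ico 0 1 = ({0} : Finset ℕ) := by rfl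
    rw [h5, Finset.sum_singleton, Nat.cast_zero, h4, zero_mul, zero_add]
    simp only [std_ee]
  have h3 : ‖∑ n ∈ Finset.Ioc M (M + N), χ n‖ * Real.sqrt q ≤ ∑ x ∈ Finset.Ico 1 q, 1 / 2 * ((q : ℝ) / x + q / (q - x)) := by
    have h4 : ‖gaussSum χ⁻¹ (ZMod.stdAddChar (N := q))‖ = Real.sqrt q := by
      rw [← gauss_prim hχ', Real.sqrt_sq (norm_nonneg _)]
    rw [← h4, ← norm_mul, h1, h2]
    refine (norm_sum_le _ _).trans (Finset.sum_le_sum fun x hx => ?_)
    rw [Finset.mem_Ico] at hx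
    have hx0 : (0 : ℝ) < x := by exact_mod_cast hx.1
    have hx1 : (x : ℝ) < q := by exact_mod_cast hx.2
    rw [norm_mul]
    have h5 := DirichletCharacter.norm_le_one χ⁻¹ (x : ZMod q)
    have h6 := geom_le (θ := (x : ℝ) / q) (by positivity) ((div_lt_one hq0).2 hx1) M N
    have h7 : 1 / ((x : ℝ) / q) = q / x := by field_simp
    have h8 : 1 / (1 - (x : ℝ) / q) = q / (q - x) := by
      have : (q : ℝ) - x ≠ 0 := by linarith
      field_simp
    rw [h7, h8] at h6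
    have h9 := mul_le_mul h5 h6 (norm_nonneg _) zero_le_one
    linarith
  have h4 : ∑ x ∈ Finset.Ico 1 q, 1 / 2 * ((q : ℝ) / x + q / (q - x)) ≤ q * (1 + Real.log q) := by
    have h5 : ∑ x ∈ Finset.Ico 1 q, (q : ℝ) / (q - x) = ∑ x ∈ Finset.Ico 1 q, (q : ℝ) / x := by
      refine Finset.sum_nbij' (fun x => q - x) (fun x => q - x) (fun x hx => ?_) (fun x hx => ?_) (fun x hx => ?_)
        (fun x hx => ?_) fun x hx => ?_
      · rw [Finset.mem_Ico] at hx ⊢; omega
      · rw [Finset.mem_Ico] at hx ⊢; omega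
      · rw [Finset.mem_Ico] at hx; omega
      · rw [Finset.mem_Ico] at hx; omega
      · rw [Finset.mem_Ico] at hx
        rw [Nat.cast_sub hx.2.le]
    rw [← Finset.mul_sum, Finset.sum_add_distrib, h5]
    have h6 : ∑ x ∈ Finset.Ico 1 q, (q : ℝ) / x ≤ q * (1 + Real.log q) := by
      have h7 : ∑ x ∈ Finset.Ico 1 q, (q : ℝ) / x = q * ∑ x ∈ Finset.Ico 1 q, ((x : ℝ))⁻¹ := by
        rw [Finset.mul_sum]
        rfl
      rw [h7]
      refine mul_le_mul_of_nonneg_left ?_ hq0.le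
      have h8 : ∑ x ∈ Finset.Ico 1 q, ((x : ℝ))⁻¹ ≤ (harmonic q : ℝ) := by
        rw [harmonic_eq_sum_Icc]
        push_cast
        refine Finset.sum_le_sum_of_subset_of_nonneg (fun x hx => ?_) fun _ _ _ => by positivity
        rw [Finset.mem_Ico] at hx
        rw [Finset.mem_Icc]
        exact ⟨hx.1, hx.2.le⟩
      exact h8.trans (harmonic_le_one_add_log q)
    linarith
  have h5 : 0 < Real.sqrt q := Real.sqrt_pos.2 hq0
  have h6 : Real.sqrt q * Real.sqrt q = q := Real.mul_self_sqrt hq0.le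
  have h7 : ‖∑ n ∈ Finset.Ioc M (M + N), χ n‖ * Real.sqrt q ≤ (Real.sqrt q * (1 + Real.log q)) * Real.sqrt q := by
    refine (h3.trans h4).trans (le_of_eq ?_)
    nth_rewrite 1 [← h6]
    ring
  exact le_of_mul_le_mul_right h7 h5

end Pool.Agent.Helper93.FFK
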