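import Mathlib

/-!
# Vaughan's identity

For `n > U`: `Λ n = ∑_{b k = n, b ≤ U} μ b log k - ∑_{m k = n} cU m - ∑_{m k = n, m > U, k > U} Λ m gU k`.
-/

open ArithmeticFunction Finset
open scoped ArithmeticFunction.Moebius ArithmeticFunction.zeta ArithmeticFunction.vonMangoldt

set_option autoImplicit false

namespace Pool.Agent.Helper93.FFK

/-- `∑_{b c = m, b ≤ U, c ≤ U} μ(b) Λ(c)` -/
noncomputable def cU (U m : ℕ) : ℝ :=
  ∑ x ∈ m.divisorsAntidiagonal, if x.1 ≤ U ∧ x.2 ≤ U then (ArithmeticFunction.moebius x.1 : ℝ) * ArithmeticFunction.vonMangoldt x.2 else 0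

/-- `∑_{b | k, b ≤ U} μ(b)` -/
noncomputable def gU (U k : ℕ) : ℝ :=
  ∑ b ∈ k.divisors, if b ≤ U then (ArithmeticFunction.moebius b : ℝ) else 0

/-- the small part of the Moebius function -/
noncomputable def mu1 (U : ℕ) : ArithmeticFunction ℝ :=
  ⟨fun n => if n ≤ U then (ArithmeticFunction.moebius n : ℝ) else 0, by simp⟩

/-- the small part of the von Mangoldt function -/
noncomputable def la1 (U : ℕ) : ArithmeticFunction ℝ :=
  ⟨fun n => if n ≤ U then ArithmeticFunction.vonMangoldt n else 0, by simp⟩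

lemma mu1_apply (U n : ℕ) : mu1 U n = if n ≤ U then (ArithmeticFunction.moebius n : ℝ) else 0 := rfl

lemma la1_apply (U n : ℕ) : la1 U n = if n ≤ U then ArithmeticFunction.vonMangoldt n else 0 := rfl

lemma sub_app (f g : ArithmeticFunction ℝ) (n : ℕ) : (f - g) n = f n - g n := by
  rw [sub_eq_add_neg, ArithmeticFunction.add_apply, ArithmeticFunction.neg_apply]
  ring

lemma la_sub (U n : ℕ) : (ArithmeticFunction.vonMangoldt - la1 U) n =
    if U < n then ArithmeticFunction.vonMangoldt n else 0 := by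
  rw [sub_app, la1_apply]
  split_ifs with h1 h2 h2
  · omega
  · ring
  · ring
  · omega

lemma cU_eq (U m : ℕ) : cU U m = (mu1 U * la1 U) m := by
  rw [mul_apply]
  unfold cU
  refine Finset.sum_congr rfl fun x _ => ?_
  rw [mu1_apply, la1_apply]
  by_cases h1 : x.1 ≤ U <;> by_cases h2 : x.2 ≤ U <;> simp [h1, h2]

lemma gU_eq (U k : ℕ) : gU U k = (mu1 U * (ArithmeticFunction.zeta : ArithmeticFunction ℝ)) k := by
  rw [coe_mul_zeta_apply]
  rfl

lemma gU_one {U : ℕ} (hU : 1 ≤ U) : gU U 1 = 1 := by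
  simp [gU, hU]

lemma gU_small {U k : ℕ} (hk : 1 < k) (hkU : k ≤ U) : gU U k = 0 := by
  have h1 : gU U k = ∑ b ∈ k.divisors, (ArithmeticFunction.moebius b : ℝ) := by
    unfold gU
    refine Finset.sum_congr rfl fun b hb => ?_
    rw [if_pos ((Nat.divisor_le hb).trans hkU)]
  have h2 : ((ArithmeticFunction.moebius : ArithmeticFunction ℤ) : ArithmeticFunction ℝ) * (ArithmeticFunction.zeta : ArithmeticFunction ℝ) = 1 :=
    coe_moebius_mul_coe_zeta
  have h3 := congrArg (fun f : ArithmeticFunction ℝ => f k) h2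
  simp only [coe_mul_zeta_apply, one_apply] at h3
  rw [if_neg (by omega)] at h3
  rw [h1, ← h3]
  simp

lemma vaughan_term {U k l : ℕ} (hU : 1 ≤ U) (hl : l ≠ 0) :
    (if U < k then ArithmeticFunction.vonMangoldt k else 0) * ((if l = 1 then (1 : ℝ) else 0) - gU U l) =
      -(if U < k ∧ U < l then ArithmeticFunction.vonMangoldt k * gU U l else 0) := by
  by_cases h6 : U < k
  · by_cases h7 : U < l
    · have h8 : l ≠ 1 := by omega
      simp only [h6, h7, h8, and_self, if_true, if_false]
      ring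
    · by_cases h8 : l = 1
      · simp only [h6, h8, gU_one hU, if_true, sub_self, mul_zero]
        rw [if_neg (by omega), neg_zero]
      · simp only [h6, h7, h8, and_false, if_true, if_false]
        rw [gU_small (by omega) (by omega)]
        ring
  · simp only [h6, false_and, if_false]
    ring

/-- Vaughan's identity -/
theorem vaughan {U n : ℕ} (hU : 1 ≤ U) (hn : U < n) :
    ArithmeticFunction.vonMangoldt n =
      (∑ x ∈ n.divisorsAntidiagonal, if x.1 ≤ U then (ArithmeticFunction.moebius x.1 : ℝ) * Real.log x.2 else 0) -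
      (∑ x ∈ n.divisorsAntidiagonal, cU U x.1) -
      ∑ x ∈ n.divisorsAntidiagonal, if U < x.1 ∧ U < x.2 then ArithmeticFunction.vonMangoldt x.1 * gU U x.2 else 0 := by
  set L : ArithmeticFunction ℝ := ArithmeticFunction.vonMangoldt with hL
  set Z : ArithmeticFunction ℝ := (ArithmeticFunction.zeta : ArithmeticFunction ℝ) with hZ
  set m : ArithmeticFunction ℝ := ((ArithmeticFunction.moebius : ArithmeticFunction ℤ) : ArithmeticFunction ℝ) with hm
  have e1 : m * Z = 1 := coe_moebius_mul_coe_zeta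
  have e2 : L * Z = ArithmeticFunction.log := vonMangoldt_mul_zeta
  have key : L = la1 U + mu1 U * ArithmeticFunction.log - mu1 U * la1 U * Z + (L - la1 U) * (1 - mu1 U * Z) := by
    rw [← e2]
    ring
  have h1 := congrArg (fun f : ArithmeticFunction ℝ => f n) key
  simp only [ArithmeticFunction.add_apply, sub_app] at h1
  have h2 : la1 U n = 0 := by rw [la1_apply, if_neg (by omega)]
  have h3 : (mu1 U * ArithmeticFunction.log) n =
      ∑ x ∈ n.divisorsAntidiagonal, if x.1 ≤ U then (ArithmeticFunction.moebius x.1 : ℝ) * Real.log x.2 else 0 := by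
    rw [mul_apply]
    refine Finset.sum_congr rfl fun x _ => ?_
    rw [mu1_apply, log_apply]
    split_ifs <;> simp
  have h4 : (mu1 U * la1 U * Z) n = ∑ x ∈ n.divisorsAntidiagonal, cU U x.1 := by
    rw [mul_apply]
    refine Finset.sum_congr rfl fun x hx => ?_
    have hx2 : x.2 ≠ 0 := by
      have := Nat.mem_divisorsAntidiagonal.1 hx
      rintro h0
      rw [h0, mul_zero] at this
      exact this.2 this.1.symm
    rw [cU_eq, hZ, natCoe_apply, zeta_apply, if_neg hx2]
    simp
  have h5 : ((L - la1 U) * (1 - mu1 U * Z)) n =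
      -∑ x ∈ n.divisorsAntidiagonal, if U < x.1 ∧ U < x.2 then ArithmeticFunction.vonMangoldt x.1 * gU U x.2 else 0 := by
    rw [mul_apply, ← Finset.sum_neg_distrib]
    refine Finset.sum_congr rfl fun x hx => ?_
    have hx2 : x.2 ≠ 0 := by
      have := Nat.mem_divisorsAntidiagonal.1 hx
      rintro h0
      rw [h0, mul_zero] at this
      exact this.2 this.1.symm
    rw [la_sub, sub_app, hZ, ← gU_eq, one_apply]
    exact vaughan_term hU hx2
  rw [h2, h3, h4, h5] at h1
  linarith

lemma moeb_le (n : ℕ) : |(ArithmeticFunction.moebius n : ℝ)| ≤ 1 := by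
  have := ArithmeticFunction.abs_moebius_le_one (n := n)
  exact_mod_cast this

theorem cU_le (U m : ℕ) : |cU U m| ≤ Real.log m := by
  rcases Nat.eq_zero_or_pos m with hm | hm
  · simp [cU, hm]
  · unfold cU
    refine (Finset.abs_sum_le_sum_abs _ _).trans ?_
    have h1 : ∀ x ∈ m.divisorsAntidiagonal,
        |if x.1 ≤ U ∧ x.2 ≤ U then (ArithmeticFunction.moebius x.1 : ℝ) * ArithmeticFunction.vonMangoldt x.2 else 0| ≤
          ArithmeticFunction.vonMangoldt x.2 := by
      intro x _
      have h0 : (0 : ℝ) ≤ ArithmeticFunction.vonMangoldt x.2 := vonMangoldt_nonneg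
      split_ifs
      · rw [abs_mul, abs_of_nonneg h0]
        exact mul_le_of_le_one_left h0 (moeb_le _)
      · rw [abs_zero]
        exact h0
    refine (Finset.sum_le_sum h1).trans ?_
    rw [Nat.sum_divisorsAntidiagonal' (f := fun _ c => ArithmeticFunction.vonMangoldt c)]
    exact (vonMangoldt_sum (n := m)).le

/-- `cU U m = 0` for `m > U²` -/
theorem cU_zero {U m : ℕ} (hm : U * U < m) : cU U m = 0 := by
  unfold cU
  refine Finset.sum_eq_zero fun x hx => ?_
  rw [if_neg]
  rintro ⟨h1, h2⟩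
  have h3 := (Nat.mem_divisorsAntidiagonal.1 hx).1
  have h4 := Nat.mul_le_mul h1 h2
  omega

theorem gU_le (U k : ℕ) : |gU U k| ≤ (k.divisors.card : ℝ) := by
  unfold gU
  refine (Finset.abs_sum_le_sum_abs _ _).trans ?_
  rw [Finset.card_eq_sum_ones]
  push_cast
  refine Finset.sum_le_sum fun b _ => ?_
  split_ifs
  · exact moeb_le b
  · simp

end Pool.Agent.Helper93.FFK
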