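import Pool.Agent.Helper93.MLS

/-!
# Gauss sums of imprimitive characters, expansion of `e(x/r)` in characters, regrouping by primitive characters

* `gauss_le`: `‖gaussSum χ‖² ≤ conductor χ` for every character `χ` mod `r`;
* `gauss_one`: `gaussSum 1 = μ r`;
* `ee_expand`: for `x` prime to `r`: `φ(r) e(x/r) = ∑_χ gaussSum χ⁻¹ χ x`, and `ee_expand'` with the principal character separated;
* `regroup`: `∑_{χ mod r, χ ≠ 1} F(cond χ, χ*) ≤ ∑_{q | r, q > 1} ∑_{χ mod q primitive} F(q, χ)`;
* `prim_apply`: `χ* n = χ n` for `(n, r) = 1`.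
-/

open MeasureTheory Set Filter
open Pool.Agent.Helper93.MLS

set_option autoImplicit false

namespace Pool.Agent.Helper93.FFK

/-- sums over `ZMod r` as sums over `range r` -/
lemma sum_zmod_range {r : ℕ} [NeZero r] (f : ZMod r → ℂ) : ∑ x : ZMod r, f x = ∑ x ∈ Finset.range r, f (x : ZMod r) := by
  refine Finset.sum_nbij' (fun x => x.val) (fun n => (n : ZMod r)) (fun x _ => ?_) (fun n _ => Finset.mem_univ _)
    (fun x _ => ZMod.natCast_zmod_val x) (fun n hn => ?_) fun x _ => ?_
  · exact Finset.mem_range.2 (ZMod.val_lt x)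
  · exact ZMod.val_cast_of_lt (Finset.mem_range.1 hn)
  · rw [ZMod.natCast_zmod_val]

lemma sum_moebius (n : ℕ) : ∑ d ∈ n.divisors, (ArithmeticFunction.moebius d : ℂ) = if n = 1 then 1 else 0 := by
  have h2 : ((ArithmeticFunction.moebius : ArithmeticFunction ℤ) : ArithmeticFunction ℂ) *
      (ArithmeticFunction.zeta : ArithmeticFunction ℂ) = 1 := ArithmeticFunction.coe_moebius_mul_coe_zeta
  have h3 := congrArg (fun f : ArithmeticFunction ℂ => f n) h2
  simp only [ArithmeticFunction.coe_mul_zeta_apply, ArithmeticFunction.one_apply] at h3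
  rw [← h3]
  simp

lemma coprime_ind (x s : ℕ) (hs : s ≠ 0) :
    (if Nat.Coprime x s then (1 : ℂ) else 0) = ∑ d ∈ s.divisors, if d ∣ x then (ArithmeticFunction.moebius d : ℂ) else 0 := by
  rw [← Finset.sum_filter]
  have h1 : s.divisors.filter (fun d => d ∣ x) = (Nat.gcd x s).divisors := by
    ext d
    rw [Finset.mem_filter, Nat.mem_divisors, Nat.mem_divisors, Nat.dvd_gcd_iff]
    constructor
    · rintro ⟨⟨h1, _⟩, h2⟩
      exact ⟨⟨h2, h1⟩, Nat.gcd_ne_zero_right hs⟩
    · rintro ⟨⟨h1, h2⟩, _⟩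
      exact ⟨⟨h2, hs⟩, h1⟩
  rw [h1, sum_moebius]

lemma geom_ee {s : ℕ} (hs : 0 < s) : ∑ k ∈ Finset.range s, ee ((k : ℝ) / s) = if s = 1 then 1 else 0 := by
  by_cases h1 : s = 1
  · subst h1
    simp [ee]
  · rw [if_neg h1]
    have h2 : ∀ k : ℕ, ee ((k : ℝ) / s) = Complex.exp (2 * Real.pi * Complex.I / s) ^ k := by
      intro k
      rw [← Complex.exp_nat_mul]
      unfold ee
      congr 1
      push_cast
      ring
    simp only [h2]
    exact (Complex.isPrimitiveRoot_exp s hs.ne').geom_sum_eq_zero (by omega)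

/-- sum over a multiple of the period -/
lemma period_sum {q s : ℕ} (hq : 0 < q) (hs : 0 < s) (f : ℕ → ℂ) (hf : ∀ j k, f (j + q * k) = f j) :
    ∑ y ∈ Finset.range (q * s), f y * ee ((y : ℝ) / (q * s)) =
      if s = 1 then ∑ j ∈ Finset.range q, f j * ee ((j : ℝ) / q) else 0 := by
  have hq0 : (q : ℝ) ≠ 0 := by positivity
  have hs0 : (s : ℝ) ≠ 0 := by positivity
  have h1 : ∑ y ∈ Finset.range (q * s), f y * ee ((y : ℝ) / (q * s)) =
      ∑ p ∈ (Finset.range q) ×ˢ (Finset.range s), f (p.1 + q * p.2) * ee (((p.1 + q * p.2 : ℕ) : ℝ) / (q * s)) := by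
    symm
    refine Finset.sum_nbij' (fun p => p.1 + q * p.2) (fun y => (y % q, y / q)) (fun p hp => ?_) (fun y hy => ?_)
      (fun p hp => ?_) (fun y _ => Nat.mod_add_div y q) fun p _ => rfl
    · rw [Finset.mem_product, Finset.mem_range, Finset.mem_range] at hp
      rw [Finset.mem_range]
      calc p.1 + q * p.2 < q + q * p.2 := by omega
        _ = q * (p.2 + 1) := by ring
        _ ≤ q * s := Nat.mul_le_mul_left q (by omega)
    · rw [Finset.mem_range] at hy
      rw [Finset.mem_product, Finset.mem_range, Finset.mem_range]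
      exact ⟨Nat.mod_lt _ hq, (Nat.div_lt_iff_lt_mul hq).2 (by rw [mul_comm]; exact hy)⟩
    · rw [Finset.mem_product, Finset.mem_range, Finset.mem_range] at hp
      refine Prod.ext ?_ ?_
      · show (p.1 + q * p.2) % q = p.1
        rw [Nat.add_mul_mod_self_left, Nat.mod_eq_of_lt hp.1]
      · show (p.1 + q * p.2) / q = p.2
        rw [Nat.add_mul_div_left _ _ hq, Nat.div_eq_of_lt hp.1, zero_add]
  rw [h1, Finset.sum_product]
  have h2 : ∀ j ∈ Finset.range q, ∑ k ∈ Finset.range s, f (j + q * k) * ee (((j + q * k : ℕ) : ℝ) / (q * s)) =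
      f j * ee ((j : ℝ) / (q * s)) * if s = 1 then 1 else 0 := by
    intro j _
    rw [← geom_ee hs, Finset.mul_sum]
    refine Finset.sum_congr rfl fun k _ => ?_
    rw [hf]
    have : ((j + q * k : ℕ) : ℝ) / (q * s) = (j : ℝ) / (q * s) + (k : ℝ) / s := by
      push_cast
      field_simp
    rw [this, ee_add]
    ring
  rw [Finset.sum_congr rfl h2]
  by_cases h3 : s = 1
  · subst h3
    simp
  · simp [h3]

/-- the Gauss sum of an induced character, in natural numbers -/
lemma induced_sum {q s : ℕ} (hq : 0 < q) (hs : 0 < s) (ψ : DirichletCharacter ℂ q) :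
    ∑ x ∈ Finset.range (q * s), (if Nat.Coprime x s then ψ x else 0) * ee ((x : ℝ) / (q * s)) =
      (ArithmeticFunction.moebius s : ℂ) * ψ s * ∑ j ∈ Finset.range q, ψ j * ee ((j : ℝ) / q) := by
  have hq0 : (q : ℝ) ≠ 0 := by positivity
  have h1 : ∀ x : ℕ, (if Nat.Coprime x s then ψ x else 0) * ee ((x : ℝ) / (q * s)) =
      ∑ d ∈ s.divisors, (ArithmeticFunction.moebius d : ℂ) * if d ∣ x then ψ x * ee ((x : ℝ) / (q * s)) else 0 := by
    intro x
    have h2 : (if Nat.Coprime x s then ψ x else 0) = (if Nat.Coprime x s then (1 : ℂ) else 0) * ψ x := by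
      split_ifs <;> simp
    rw [h2, coprime_ind x s hs.ne', Finset.sum_mul, Finset.sum_mul]
    refine Finset.sum_congr rfl fun d _ => ?_
    split_ifs <;> ring
  simp only [h1]
  rw [Finset.sum_comm]
  simp only [← Finset.mul_sum]
  have h3 : ∀ d ∈ s.divisors, ∑ x ∈ Finset.range (q * s), (if d ∣ x then ψ x * ee ((x : ℝ) / (q * s)) else 0) =
      if d = s then ψ s * ∑ j ∈ Finset.range q, ψ j * ee ((j : ℝ) / q) else 0 := by
    intro d hd
    obtain ⟨⟨s', hs'⟩, _⟩ := Nat.mem_divisors.1 hd
    have hd0 : 0 < d := Nat.pos_of_mem_divisors hd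
    have hs0' : 0 < s' := by
      rcases Nat.eq_zero_or_pos s' with h | h
      · rw [h, mul_zero] at hs'
        omega
      · exact h
    have hdr : (d : ℝ) ≠ 0 := by positivity
    have hsr : (s' : ℝ) ≠ 0 := by positivity
    rw [← Finset.sum_filter]
    have h4 : ∑ x ∈ (Finset.range (q * s)).filter (fun x => d ∣ x), ψ x * ee ((x : ℝ) / (q * s)) =
        ∑ y ∈ Finset.range (q * s'), ψ (d * y : ℕ) * ee (((d * y : ℕ) : ℝ) / (q * s)) := by
      symm
      refine Finset.sum_nbij' (fun y => d * y) (fun x => x / d) (fun y hy => ?_) (fun x hx => ?_)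
        (fun y _ => Nat.mul_div_cancel_left y hd0) (fun x hx => ?_) fun y _ => rfl
      · rw [Finset.mem_range] at hy
        rw [Finset.mem_filter, Finset.mem_range]
        refine ⟨?_, Dvd.intro _ rfl⟩
        rw [hs']
        calc d * y < d * (q * s') := Nat.mul_lt_mul_of_pos_left hy hd0
          _ = q * (d * s') := by ring
      · rw [Finset.mem_filter, Finset.mem_range] at hx
        rw [Finset.mem_range, Nat.div_lt_iff_lt_mul hd0]
        calc x < q * s := hx.1
          _ = q * s' * d := by rw [hs']; ring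
      · rw [Finset.mem_filter] at hx
        exact Nat.mul_div_cancel' hx.2
    rw [h4]
    have h5 : ∀ y ∈ Finset.range (q * s'), ψ (d * y : ℕ) * ee (((d * y : ℕ) : ℝ) / (q * s)) =
        ψ d * (ψ y * ee ((y : ℝ) / (q * s'))) := by
      intro y _
      have h6 : ((d * y : ℕ) : ℝ) / (q * s) = (y : ℝ) / (q * s') := by
        rw [hs']
        push_cast
        field_simp
      rw [h6]
      push_cast
      rw [map_mul]
      ring
    rw [Finset.sum_congr rfl h5, ← Finset.mul_sum, period_sum hq hs0' (fun y => ψ y) (fun j k => by simp)]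
    by_cases h7 : s' = 1
    · have h9 : d = s := by rw [hs', h7, mul_one]
      rw [if_pos h7, if_pos h9, h9]
    · rw [if_neg h7, mul_zero, if_neg]
      intro h8
      apply h7
      rw [h8] at hs'
      exact Nat.eq_of_mul_eq_mul_left hs (by omega)
  rw [Finset.sum_congr rfl fun d hd => by rw [h3 d hd]]
  simp only [mul_ite, mul_zero]
  rw [Finset.sum_ite_eq', if_pos (Nat.mem_divisors_self s hs.ne')]
  ring

variable {r : ℕ} [NeZero r]

omit [NeZero r] in
lemma prim_apply (χ : DirichletCharacter ℂ r) {n : ℕ} (h : Nat.Coprime n r) : χ.primitiveCharacter n = χ n := by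
  have h1 := DirichletCharacter.primitiveCharacter_apply_of_isCoprime χ (a := (n : ℤ)) (Nat.isCoprime_iff_coprime.2 h)
  exact_mod_cast h1

lemma gaussSum_range (χ : DirichletCharacter ℂ r) :
    gaussSum χ ZMod.stdAddChar = ∑ x ∈ Finset.range r, χ x * ee ((x : ℝ) / r) := by
  unfold gaussSum
  rw [sum_zmod_range]
  refine Finset.sum_congr rfl fun x _ => ?_
  have h := std_ee (q := r) x 1
  push_cast at h
  rw [mul_one] at h
  rw [h]
  congr 2
  ring

/-- the Gauss sum of an imprimitive character -/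
theorem gauss_eq (χ : DirichletCharacter ℂ r) [NeZero χ.conductor] :
    gaussSum χ ZMod.stdAddChar = (ArithmeticFunction.moebius (r / χ.conductor) : ℂ) *
      χ.primitiveCharacter ((r / χ.conductor : ℕ) : ZMod χ.conductor) * gaussSum χ.primitiveCharacter ZMod.stdAddChar := by
  set q := χ.conductor with hq
  obtain ⟨s, hs⟩ : q ∣ r := χ.conductor_dvd_level
  have hr0 : r ≠ 0 := NeZero.ne r
  have hq0 : 0 < q := Nat.pos_of_ne_zero (NeZero.ne _)
  have hs0 : 0 < s := by
    rcases Nat.eq_zero_or_pos s with h | h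
    · rw [h, mul_zero] at hs
      exact absurd hs hr0
    · exact h
  have hrs : r / q = s := by
    rw [hs]
    exact Nat.mul_div_cancel_left s hq0
  rw [hrs, gaussSum_range, gaussSum_range, ← induced_sum hq0 hs0]
  have e1 : ((r : ℕ) : ℝ) = (q : ℝ) * s := by
    rw [← Nat.cast_mul, ← hs]
  rw [e1]
  have e2 : Finset.range r = Finset.range (q * s) := by rw [← hs]
  rw [e2]
  refine Finset.sum_congr rfl fun x _ => ?_
  congr 1
  by_cases hx : Nat.Coprime x r
  · have h1 : Nat.Coprime x s := Nat.Coprime.coprime_dvd_right (Dvd.intro_left q hs.symm) hx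
    rw [if_pos h1, prim_apply χ hx]
  · have h1 : χ (x : ZMod r) = 0 := by
      apply MulChar.map_nonunit
      rwa [ZMod.isUnit_iff_coprime]
    rw [h1]
    by_cases h2 : Nat.Coprime x s
    · rw [if_pos h2]
      symm
      apply MulChar.map_nonunit
      rw [ZMod.isUnit_iff_coprime]
      intro h3
      apply hx
      rw [hs]
      exact Nat.Coprime.mul_right h3 h2
    · rw [if_neg h2]

theorem gauss_le (χ : DirichletCharacter ℂ r) : ‖gaussSum χ ZMod.stdAddChar‖ ^ 2 ≤ χ.conductor := by
  haveI : NeZero χ.conductor := ⟨χ.conductor_ne_zero⟩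
  rw [gauss_eq χ, norm_mul, mul_pow, gauss_prim χ.primitiveCharacter_isPrimitive, norm_mul]
  have h1 : ‖(ArithmeticFunction.moebius (r / χ.conductor) : ℂ)‖ ≤ 1 := by
    rw [Complex.norm_intCast]
    exact_mod_cast ArithmeticFunction.abs_moebius_le_one
  have h2 := DirichletCharacter.norm_le_one χ.primitiveCharacter ((r / χ.conductor : ℕ) : ZMod χ.conductor)
  have h3 : ‖(ArithmeticFunction.moebius (r / χ.conductor) : ℂ)‖ *
      ‖χ.primitiveCharacter ((r / χ.conductor : ℕ) : ZMod χ.conductor)‖ ≤ 1 := by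
    have := mul_le_mul h1 h2 (norm_nonneg _) zero_le_one
    linarith
  have h4 : (‖(ArithmeticFunction.moebius (r / χ.conductor) : ℂ)‖ *
      ‖χ.primitiveCharacter ((r / χ.conductor : ℕ) : ZMod χ.conductor)‖) ^ 2 ≤ 1 := pow_le_one₀ (by positivity) h3
  have h5 : (0 : ℝ) ≤ χ.conductor := Nat.cast_nonneg _
  nlinarith

theorem gauss_one : gaussSum (1 : DirichletCharacter ℂ r) ZMod.stdAddChar = (ArithmeticFunction.moebius r : ℂ) := by
  have hr0 : 0 < r := Nat.pos_of_ne_zero (NeZero.ne r)
  have h1 := induced_sum (q := 1) (s := r) one_pos hr0 1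
  rw [gaussSum_range]
  simp only [Nat.cast_one, one_mul, Finset.range_one, Finset.sum_singleton, Nat.cast_zero, zero_div] at h1
  have h2 : ∀ x : ℕ, (1 : DirichletCharacter ℂ r) x = if Nat.Coprime x r then (1 : DirichletCharacter ℂ 1) x else 0 := by
    intro x
    by_cases hx : Nat.Coprime x r
    · rw [if_pos hx, MulChar.one_apply ((ZMod.isUnit_iff_coprime x r).2 hx), MulChar.one_apply]
      rw [ZMod.isUnit_iff_coprime]
      exact Nat.coprime_one_right x
    · rw [if_neg hx]
      apply MulChar.map_nonunit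
      rwa [ZMod.isUnit_iff_coprime]
  simp only [h2]
  rw [h1]
  have h3 : ∀ y : ZMod 1, (1 : DirichletCharacter ℂ 1) y = 1 := by
    intro y
    apply MulChar.one_apply
    rw [Subsingleton.elim y 1]
    exact isUnit_one
  rw [h3, h3]
  simp [ee]

/-- expansion of the additive character in multiplicative characters -/
theorem std_expand {x : ZMod r} (hx : IsUnit x) :
    (r.totient : ℂ) * ZMod.stdAddChar x = ∑ χ : DirichletCharacter ℂ r, gaussSum χ⁻¹ ZMod.stdAddChar * χ x := by
  unfold gaussSum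
  simp only [Finset.sum_mul]
  rw [Finset.sum_comm]
  have h7 : ∀ y : ZMod r, ∑ χ : DirichletCharacter ℂ r, χ⁻¹ y * ZMod.stdAddChar y * χ x =
      if y = x then (r.totient : ℂ) * ZMod.stdAddChar y else 0 := by
    intro y
    by_cases hy : IsUnit y
    · have h8 : ∀ χ : DirichletCharacter ℂ r, χ⁻¹ y * ZMod.stdAddChar y * χ x = (χ y⁻¹ * χ x) * ZMod.stdAddChar y := by
        intro χ
        have h9 : χ⁻¹ y = χ y⁻¹ := by
          rw [MulChar.inv_apply, ← hy.unit_spec, Ring.inverse_unit, ZMod.inv_coe_unit]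
        rw [h9]
        ring
      simp only [h8]
      rw [← Finset.sum_mul, DirichletCharacter.sum_char_inv_mul_char_eq (R := ℂ) hy x]
      split_ifs <;> simp
    · rw [if_neg (fun h => hy (by rw [h]; exact hx))]
      refine Finset.sum_eq_zero fun χ _ => ?_
      rw [MulChar.map_nonunit _ hy]
      ring
  simp only [h7]
  rw [Finset.sum_ite_eq' Finset.univ x, if_pos (Finset.mem_univ _)]

/-- the principal character separated -/
theorem std_expand' {x : ZMod r} (hx : IsUnit x) :
    (r.totient : ℂ) * ZMod.stdAddChar x - (ArithmeticFunction.moebius r : ℂ) =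
      ∑ χ ∈ (Finset.univ : Finset (DirichletCharacter ℂ r)).erase 1, gaussSum χ⁻¹ ZMod.stdAddChar * χ x := by
  classical
  rw [std_expand hx, ← Finset.add_sum_erase _ _ (Finset.mem_univ (1 : DirichletCharacter ℂ r)), inv_one, gauss_one,
    MulChar.one_apply hx]
  ring

open Classical in
/-- regrouping of the nonprincipal characters by primitive characters -/
theorem regroup (F : (q : ℕ) → DirichletCharacter ℂ q → ℝ) (hF : ∀ q χ, 0 ≤ F q χ) :
    ∑ χ ∈ (Finset.univ : Finset (DirichletCharacter ℂ r)).erase 1, F χ.conductor χ.primitiveCharacter ≤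
      ∑ q ∈ r.divisors.filter (fun q => 1 < q),
        ∑ χ ∈ (Finset.univ : Finset (DirichletCharacter ℂ q)).filter (fun χ => χ.IsPrimitive), F q χ := by
  have hr0 : r ≠ 0 := NeZero.ne r
  rw [Finset.sum_sigma']
  set g : DirichletCharacter ℂ r → (Σ q : ℕ, DirichletCharacter ℂ q) := fun χ => ⟨χ.conductor, χ.primitiveCharacter⟩ with hg
  have hinj : Set.InjOn g ((Finset.univ : Finset (DirichletCharacter ℂ r)).erase 1 : Set (DirichletCharacter ℂ r)) := by
    intro χ _ ψ _ h
    have h1 : ∀ (p : Σ q : ℕ, DirichletCharacter ℂ q) (hd : p.1 ∣ r) (χ : DirichletCharacter ℂ r),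
        g χ = p → DirichletCharacter.changeLevel hd p.2 = χ := by
      rintro p hd χ rfl
      exact χ.changeLevel_primitiveCharacter
    have h2 := h1 (g ψ) ψ.conductor_dvd_level χ h
    have h3 := h1 (g ψ) ψ.conductor_dvd_level ψ rfl
    exact h2.symm.trans h3
  have h4 : ∑ χ ∈ (Finset.univ : Finset (DirichletCharacter ℂ r)).erase 1, F χ.conductor χ.primitiveCharacter =
      ∑ p ∈ ((Finset.univ : Finset (DirichletCharacter ℂ r)).erase 1).image g, F p.1 p.2 := by
    rw [Finset.sum_image hinj]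
  rw [h4]
  refine Finset.sum_le_sum_of_subset_of_nonneg ?_ fun p _ _ => hF _ _
  intro p hp
  obtain ⟨χ, hχ, rfl⟩ := Finset.mem_image.1 hp
  have hχ1 : χ ≠ 1 := (Finset.mem_erase.1 hχ).1
  simp only [hg, Finset.mem_sigma, Finset.mem_filter, Nat.mem_divisors, Finset.mem_univ, true_and]
  refine ⟨⟨⟨χ.conductor_dvd_level, hr0⟩, ?_⟩, χ.primitiveCharacter_isPrimitive⟩
  have h5 : χ.conductor ≠ 0 := χ.conductor_ne_zero
  have h6 : χ.conductor ≠ 1 := fun h => hχ1 ((DirichletCharacter.eq_one_iff_conductor_eq_one).2 h)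
  omega

end Pool.Agent.Helper93.FFK
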